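import Pool.Agent.H13.LG.Wedge

/-!
# Orders of polynomials in functions and of algebraic functions
-/

open MvPolynomial
open Pool.Agent.H23 (dualDer dualDer_apply dualDer_coord exists_int)

noncomputable section

namespace Pool.Agent.H13.LG

section degree

variable {σ : Type*}

lemma totalDegree_pderiv_le (j : σ) (p : MvPolynomial σ ℂ) :
    (pderiv j p).totalDegree ≤ p.totalDegree - 1 := by
  classical
  rw [totalDegree]
  apply Finset.sup_le
  intro m hm
  rw [mem_support_iff, coeff_pderiv] at hm
  have h1 : m + Finsupp.single j 1 ∈ p.support := by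
    rw [mem_support_iff]
    intro h0
    apply hm
    rw [h0, zero_mul]
  have h2 := le_totalDegree h1
  rw [Finsupp.sum_add_index' (fun _ => rfl) (fun _ _ _ => rfl),
    Finsupp.sum_single_index rfl] at h2
  omega

lemma exists_pderiv_ne_zero {p : MvPolynomial σ ℂ} (h : 0 < p.totalDegree) :
    ∃ j, pderiv j p ≠ 0 := by
  classical
  have hp : p.support.Nonempty := by
    rw [Finset.nonempty_iff_ne_empty]
    intro h0
    rw [support_eq_empty] at h0
    rw [h0, totalDegree_zero] at h
    exact lt_irrefl _ h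
  obtain ⟨m, hm, hm'⟩ := Finset.exists_mem_eq_sup p.support hp fun s => s.sum fun _ e => e
  rw [← totalDegree] at hm'
  rw [hm'] at h
  obtain ⟨j, hj, hj'⟩ : ∃ j ∈ m.support, 0 < m j := by
    by_contra hc
    push Not at hc
    rw [Finsupp.sum, Finset.sum_eq_zero fun j hj => Nat.le_zero.1 (hc j hj)] at h
    exact lt_irrefl _ h
  refine ⟨j, fun h0 => ?_⟩
  have h1 := congrArg (coeff (m - Finsupp.single j 1)) h0
  rw [coeff_pderiv, coeff_zero] at h1
  have h2 : m - Finsupp.single j 1 + Finsupp.single j 1 = m := by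
    apply tsub_add_cancel_of_le
    rw [Finsupp.single_le_iff]
    exact hj'
  rw [h2] at h1
  rcases mul_eq_zero.1 h1 with h3 | h3
  · exact (mem_support_iff.1 hm) h3
  · exact Nat.cast_add_one_ne_zero _ h3

end degree

section derivation

variable {K : Type} [Field K] [Algebra ℂ K] {M : Type*} [AddCommGroup M] [Module ℂ M] [Module K M]

lemma derivation_aeval {n : ℕ} (δ : Derivation ℂ K M) (x : Fin n → K)
    (p : MvPolynomial (Fin n) ℂ) :
    δ (aeval x p) = ∑ i, aeval x (pderiv i p) • δ (x i) := by
  classical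
  induction p using MvPolynomial.induction_on with
  | C a =>
    rw [aeval_C, δ.map_algebraMap]
    simp
  | add p q hp hq =>
    rw [map_add, map_add, hp, hq, ← Finset.sum_add_distrib]
    refine Finset.sum_congr rfl fun i _ => ?_
    rw [map_add, map_add, add_smul]
  | mul_X p j hp =>
    rw [map_mul, aeval_X, δ.leibniz, hp, Finset.smul_sum]
    have h1 : ∀ i, aeval x (pderiv i (p * X j)) • δ (x i) =
        (if i = j then aeval x p • δ (x j) else 0) + x j • aeval x (pderiv i p) • δ (x i) := by
      intro i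
      rw [pderiv_mul, map_add, map_mul, map_mul, aeval_X, add_smul, pderiv_X]
      rw [add_comm]
      congr 1
      · by_cases hij : i = j
        · subst hij
          simp
        · rw [if_neg hij, Pi.single_eq_of_ne (Ne.symm hij)]
          simp
      · rw [mul_comm, mul_smul]
    simp only [h1]
    rw [Finset.sum_add_distrib, Finset.sum_ite_eq' Finset.univ j, if_pos (Finset.mem_univ _)]

end derivation

section wedge

variable {K : Type} [Field K] [Algebra ℂ K] {n : ℕ}

/-- `dp(x) ∧ dx_(J - j) = (∂_j p)(x) dx_J`. -/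
lemma det_update (b : Module.Basis (Fin n) K Ω[K⁄ℂ]) (x : Fin n → K) (j : Fin n)
    (p : MvPolynomial (Fin n) ℂ) :
    (b.det fun i => KaehlerDifferential.D ℂ K (Function.update x j (aeval x p) i)) =
      aeval x (pderiv j p) * b.det fun i => KaehlerDifferential.D ℂ K (x i) := by
  classical
  have h0 : (fun i => KaehlerDifferential.D ℂ K (Function.update x j (aeval x p) i)) =
      Function.update (fun i => KaehlerDifferential.D ℂ K (x i)) j
        (∑ i, aeval x (pderiv i p) • KaehlerDifferential.D ℂ K (x i)) := by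
    funext i
    by_cases hij : i = j
    · subst hij
      rw [Function.update_self, Function.update_self, derivation_aeval]
    · rw [Function.update_of_ne hij, Function.update_of_ne hij]
  rw [h0, AlternatingMap.map_update_sum, Finset.sum_eq_single j]
  · rw [AlternatingMap.map_update_smul, smul_eq_mul, Function.update_eq_self]
  · intro l _ hl
    rw [AlternatingMap.map_update_smul]
    have : b.det (Function.update (fun i => KaehlerDifferential.D ℂ K (x i)) j
        (KaehlerDifferential.D ℂ K (x l))) = 0 := by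
      apply AlternatingMap.map_eq_zero_of_eq _ _ (i := j) (j := l) _ (Ne.symm hl)
      rw [Function.update_self, Function.update_of_ne hl]
    rw [this, smul_zero]
  · intro h
    exact absurd (Finset.mem_univ _) h

end wedge

section bounds

variable {K : Type} [Field K] [Algebra ℂ K]

lemma ord_algebraMap (v : AddValuation K (WithTop ℤ)) (hv : ∀ c : ℂ, 0 ≤ v (algebraMap ℂ K c))
    {c : ℂ} (hc : c ≠ 0) : v (algebraMap ℂ K c) = 0 := by
  have h1 : v (algebraMap ℂ K c) + v (algebraMap ℂ K c⁻¹) = 0 := by
    rw [← v.map_mul, ← map_mul, mul_inv_cancel₀ hc, map_one, v.map_one]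
  refine le_antisymm ?_ (hv c)
  rw [← h1]
  exact le_add_of_nonneg_right (hv _)

/-- The order of a polynomial in functions which are regular along `E` is at most the degree times
the log discrepancy `1 + ord (dx)` of these functions. -/
theorem ord_aeval_le {n : ℕ} (v : AddValuation K (WithTop ℤ))
    (hv : ∀ c : ℂ, 0 ≤ v (algebraMap ℂ K c)) (b : Module.Basis (Fin n) K Ω[K⁄ℂ])
    (hlog : ∀ a : Fin n → K, (∑ j, v (a j)) ≤
      1 + v (b.det fun j => KaehlerDifferential.D ℂ K (a j)))
    {x : Fin n → K} (hx : ∀ j, 0 ≤ v (x j)) {p : MvPolynomial (Fin n) ℂ} (hp : p ≠ 0) :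
    v (aeval x p) ≤ p.totalDegree • (1 + v (b.det fun j => KaehlerDifferential.D ℂ K (x j))) := by
  classical
  obtain ⟨d, hd⟩ : ∃ d, p.totalDegree = d := ⟨_, rfl⟩
  obtain ⟨A, hA⟩ : ∃ A, A = 1 + v (b.det fun j => KaehlerDifferential.D ℂ K (x j)) := ⟨_, rfl⟩
  have hA0 : 0 ≤ A := by
    rw [hA]
    exact le_trans (Finset.sum_nonneg fun j _ => hx j) (hlog x)
  have key : ∀ (d : ℕ) (p : MvPolynomial (Fin n) ℂ), p ≠ 0 → p.totalDegree ≤ d →
      v (aeval x p) ≤ p.totalDegree • A := by
    intro d
    induction d with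
    | zero =>
      intro p hp h
      rw [Nat.le_zero] at h
      rw [h, zero_smul]
      rw [totalDegree_eq_zero_iff_eq_C] at h
      rw [h, aeval_C]
      apply le_of_eq
      apply ord_algebraMap v hv
      intro h0
      apply hp
      rw [h, h0, C_0]
    | succ d ih =>
      intro p hp h
      by_cases h0 : p.totalDegree = 0
      · rw [h0, zero_smul]
        rw [totalDegree_eq_zero_iff_eq_C] at h0
        rw [h0, aeval_C]
        apply le_of_eq
        apply ord_algebraMap v hv
        intro h1
        apply hp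
        rw [h0, h1, C_0]
      · obtain ⟨j, hj⟩ := exists_pderiv_ne_zero (Nat.pos_of_ne_zero h0)
        have h1 := totalDegree_pderiv_le j p
        have h2 := ih _ hj (by omega)
        have h3 := hlog (Function.update x j (aeval x p))
        rw [det_update, v.map_mul] at h3
        have h4 : v (aeval x p) ≤ ∑ i, v (Function.update x j (aeval x p) i) := by
          rw [← Finset.add_sum_erase _ _ (Finset.mem_univ j), Function.update_self]
          apply le_add_of_nonneg_right
          apply Finset.sum_nonneg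
          intro i hi
          rw [Function.update_of_ne (Finset.ne_of_mem_erase hi)]
          exact hx i
        refine le_trans h4 (le_trans h3 ?_)
        rw [← add_assoc, add_comm 1, add_assoc, ← hA]
        obtain ⟨e, he⟩ : ∃ e, p.totalDegree = e + 1 := ⟨p.totalDegree - 1, by omega⟩
        rw [he, succ_nsmul]
        refine add_le_add (le_trans h2 ?_) le_rfl
        exact nsmul_le_nsmul_left hA0 (by omega)
  rw [← hA]
  exact key _ p hp le_rfl

end bounds

section algebraic

variable {L : Type*} [Field L] [Algebra ℂ L] {Γ : Type*} [LinearOrderedAddCommMonoidWithTop Γ]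

lemma ord_aeval_nonneg (v : AddValuation L Γ) (hv : ∀ c : ℂ, 0 ≤ v (algebraMap ℂ L c)) {σ : Type*}
    {x : σ → L} (hx : ∀ j, 0 ≤ v (x j)) (p : MvPolynomial σ ℂ) : 0 ≤ v (aeval x p) := by
  induction p using MvPolynomial.induction_on with
  | C a => rw [aeval_C]; exact hv a
  | add p q hp hq => rw [map_add]; exact v.map_le_add hp hq
  | mul_X p j hp =>
    rw [map_mul, aeval_X, v.map_mul]
    exact add_nonneg hp (hx j)

lemma ord_eval₂_nonneg (v : AddValuation L Γ) {R : Type*} [CommRing R] (f : R →+* L)
    (hf : ∀ r, 0 ≤ v (f r)) {h : L} (hh : 0 ≤ v h) (F : Polynomial R) : 0 ≤ v (F.eval₂ f h) := by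
  induction F using Polynomial.induction_on' with
  | add p q hp hq => rw [Polynomial.eval₂_add]; exact v.map_le_add hp hq
  | monomial n a =>
    rw [Polynomial.eval₂_monomial, v.map_mul, v.map_pow]
    exact add_nonneg (hf a) (nsmul_nonneg hh n)

lemma exists_coeff_zero_ne {R : Type*} [CommRing R] (f : R →+* L) {h : L} (h0 : h ≠ 0) :
    ∀ (d : ℕ) (F : Polynomial R), F.natDegree ≤ d → F ≠ 0 → F.eval₂ f h = 0 →
      ∃ G : Polynomial R, G.coeff 0 ≠ 0 ∧ G.eval₂ f h = 0 := by
  intro d
  induction d with
  | zero =>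
    intro F hd hF hF0
    refine ⟨F, fun h1 => hF ?_, hF0⟩
    rw [Polynomial.eq_C_of_natDegree_le_zero hd, h1, Polynomial.C_0]
  | succ d ih =>
    intro F hd hF hF0
    by_cases h1 : F.coeff 0 = 0
    · have h2 : F.divX * Polynomial.X = F := by
        have := F.divX_mul_X_add
        rwa [h1, Polynomial.C_0, add_zero] at this
      apply ih F.divX
      · rw [Polynomial.natDegree_divX_eq_natDegree_tsub_one]
        omega
      · intro h3
        rw [h3, zero_mul] at h2
        exact hF h2.symm
      · rw [← h2, Polynomial.eval₂_mul_X] at hF0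
        exact (mul_eq_zero.1 hF0).resolve_right h0
    · exact ⟨F, h1, hF0⟩

/-- A function `h ≠ 0` algebraic over `ℂ(x)` divides a polynomial in the `x j`, uniformly for all
valuations with `v (x j) ≥ 0` and `v h ≥ 0`. -/
theorem exists_poly_bound' {σ : Type*} {x : σ → L} {h : L} (h0 : h ≠ 0)
    (halg : ∃ F : Polynomial (MvPolynomial σ ℂ), F ≠ 0 ∧
      F.eval₂ (MvPolynomial.aeval x).toRingHom h = 0) :
    ∃ p : MvPolynomial σ ℂ, p ≠ 0 ∧ ∀ (Γ : Type) [LinearOrderedAddCommMonoidWithTop Γ]
      (v : AddValuation L Γ), (∀ c : ℂ, 0 ≤ v (algebraMap ℂ L c)) → (∀ j, 0 ≤ v (x j)) →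
        0 ≤ v h → v h ≤ v (aeval x p) := by
  obtain ⟨F, hF, hF0⟩ := halg
  obtain ⟨G, hG, hG0⟩ := exists_coeff_zero_ne _ h0 F.natDegree F le_rfl hF hF0
  refine ⟨G.coeff 0, hG, fun Γ _ v hv hx hh => ?_⟩
  have h1 := congrArg (Polynomial.eval₂ (MvPolynomial.aeval x).toRingHom h) G.divX_mul_X_add
  rw [hG0, Polynomial.eval₂_add, Polynomial.eval₂_mul_X, Polynomial.eval₂_C] at h1
  have h2 : aeval x (G.coeff 0) =
      -(G.divX.eval₂ (MvPolynomial.aeval x).toRingHom h * h) := by
    rw [eq_neg_iff_add_eq_zero, add_comm]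
    exact h1
  rw [h2, v.map_neg, v.map_mul]
  apply le_add_of_nonneg_left
  exact ord_eval₂_nonneg v _ (fun r => ord_aeval_nonneg v hv hx r) hh _

theorem exists_poly_bound {σ : Type*} {x : σ → L} (hx : IsTranscendenceBasis ℂ x) {h : L}
    (h0 : h ≠ 0) :
    ∃ p : MvPolynomial σ ℂ, p ≠ 0 ∧ ∀ (Γ : Type) [LinearOrderedAddCommMonoidWithTop Γ]
      (v : AddValuation L Γ), (∀ c : ℂ, 0 ≤ v (algebraMap ℂ L c)) → (∀ j, 0 ≤ v (x j)) →
        0 ≤ v h → v h ≤ v (aeval x p) :=
  exists_poly_bound' h0 (Pool.Agent.H23.exists_poly_of_basis hx h)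

end algebraic

end Pool.Agent.H13.LG
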