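import Pool.Agent.H17LG.ModLREG

/-!
# Orders of wedge products of exact differentials
-/

open Pool.Agent.H23 (dualDer dualDer_apply dualDer_coord exists_int)
open Pool.Agent.H17LG (exists_logDivisorCoords)

noncomputable section

namespace Pool.Agent.H13.LG

variable {K : Type} [Field K]

lemma ord_prod (v : AddValuation K (WithTop ℤ)) {ι : Type*} (s : Finset ι) (f : ι → K) :
    v (∏ i ∈ s, f i) = ∑ i ∈ s, v (f i) := by
  classical
  induction s using Finset.induction_on with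
  | empty => simp
  | insert a s ha ih => rw [Finset.prod_insert ha, Finset.sum_insert ha, v.map_mul, ih]

/-- The order of a determinant whose `j`-th column has order at least `c j`. -/
lemma ord_det_ge (v : AddValuation K (WithTop ℤ)) {n : ℕ} (M : Matrix (Fin n) (Fin n) K)
    (c : Fin n → WithTop ℤ) (h : ∀ i j, c j ≤ v (M i j)) : ∑ j, c j ≤ v M.det := by
  rw [Matrix.det_apply]
  apply v.map_le_sum
  intro σ _
  have h1 : v (Equiv.Perm.sign σ • ∏ i, M (σ i) i) = v (∏ i, M (σ i) i) := by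
    rcases Int.units_eq_one_or (Equiv.Perm.sign σ) with h | h
    · rw [h, one_smul]
    · rw [h, Units.neg_smul, one_smul, v.map_neg]
  rw [h1, ord_prod]
  exact Finset.sum_le_sum fun i _ => h _ _

variable [Algebra ℂ K]

/-- There are coordinates `g` at the prime divisor `E`, with `E.ord (g 0) = 1`, such that
`da₁ ∧ ⋯ ∧ daₙ = det • dg₁ ∧ ⋯ ∧ dgₙ` with `E.ord det ≥ E.ord a₁ + ⋯ + E.ord aₙ - 1`, and
`E.ord det ≥ 0` if all `E.ord aᵢ` are nonnegative. -/
theorem exists_wedgeCoords [Algebra.EssFiniteType ℂ K] {k : ℕ} {z : Fin (k + 1) → K}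
    (hz : IsTranscendenceBasis ℂ z) (E : Pool.Agent.H23.PrimeDivisorOver K (k + 1)) :
    ∃ (g : Fin (k + 1) → K) (b : Module.Basis (Fin (k + 1)) K Ω[K⁄ℂ]),
      (∀ i, b i = KaehlerDifferential.D ℂ K (g i)) ∧ E.ord (g 0) = 1 ∧ (∀ i, 0 ≤ E.ord (g i)) ∧
      (∀ i f, 0 ≤ E.ord f → 0 ≤ E.ord (dualDer b i f)) ∧
      (∀ i, i ≠ 0 → ∀ f, E.ord f ≤ E.ord (dualDer b i f)) ∧
      (∀ f, E.ord f ≤ E.ord (g 0 * dualDer b 0 f)) ∧
      (∀ a : Fin (k + 1) → K, (∑ j, E.ord (a j)) ≤
        1 + E.ord (b.det fun j => KaehlerDifferential.D ℂ K (a j))) ∧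
      (∀ a : Fin (k + 1) → K, (∀ j, 0 ≤ E.ord (a j)) →
        0 ≤ E.ord (b.det fun j => KaehlerDifferential.D ℂ K (a j))) := by
  obtain ⟨g, b, h1, h2, h3, h4, h5, h6⟩ := exists_logDivisorCoords hz E
  refine ⟨g, b, h1, h2, h3, h4, h5, h6, ?_, ?_⟩
  · intro a
    obtain ⟨M, hM⟩ : ∃ M : Matrix (Fin (k + 1)) (Fin (k + 1)) K,
      M = Matrix.of fun i j => dualDer b i (a j) := ⟨_, rfl⟩
    have hdet : b.det (fun j => KaehlerDifferential.D ℂ K (a j)) = M.det := by
      rw [Module.Basis.det_apply]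
      congr 1
      ext i j
      rw [hM, Module.Basis.toMatrix_apply]
      rfl
    obtain ⟨c, hc⟩ : ∃ c : Fin (k + 1) → K, c = Fin.cons (g 0) 1 := ⟨_, rfl⟩
    have h7 : (∏ i, c i) = g 0 := by
      rw [Fin.prod_univ_succ, hc]
      simp
    have h8 : (Matrix.of fun i j => c i * M i j).det = g 0 * M.det := by
      rw [← h7, ← Matrix.det_mul_column]
    rw [hdet, ← h2, ← E.ord.map_mul, ← h8]
    apply ord_det_ge
    intro i j
    rw [Matrix.of_apply, hM, Matrix.of_apply]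
    refine Fin.cases ?_ (fun i => ?_) i
    · rw [hc, Fin.cons_zero]
      exact h6 _
    · rw [hc, Fin.cons_succ, Pi.one_apply, one_mul]
      exact h5 _ (Fin.succ_ne_zero i) _
  · intro a ha
    rw [Module.Basis.det_apply]
    have := ord_det_ge E.ord (b.toMatrix fun j => KaehlerDifferential.D ℂ K (a j)) (fun _ => 0)
      (fun i j => h4 i _ (ha j))
    simpa using this

end Pool.Agent.H13.LG
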